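import Pool.Agent.Helper68.VN.GoalsN

/-!
# MP_a41896_nt, project PG, packet PG-NWB: weighted degrees of the norm polynomial

Adapted from the landed two-factor proofs (`Pool/Agent/Helper23/SGT/NQW.lean`, `Pool/Agent/Helper41/SG2/NQWT.lean`).
-/

set_option autoImplicit false

open MvPolynomial

namespace Pool.Agent.Helper75.VN

open WeierstrassCurve
open Pool.Agent.Helper29.BL Pool.Agent.Helper92.Ru Pool.Agent.Helper42.SG
open Pool.Agent.Helper68.VN

noncomputable section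

/-- the degree of `F` in `(X_h, Ψ_h)` with weights `1, 2` is at most `d` (the same as `WDV` of the goals) -/
def Wd {K : Type} [Field K] {V : Type} (h : V) (d : ℕ) (F : MvPolynomial (V ⊕ V) K) : Prop :=
  ∀ m ∈ F.support, m (Sum.inl h) + 2 * m (Sum.inr h) ≤ d

section Wdalg

variable {K : Type} [Field K] {V : Type} {h : V}

theorem Wd.mono {a b : ℕ} {F : MvPolynomial (V ⊕ V) K} (hF : Wd h a F) (hab : a ≤ b) : Wd h b F :=
  fun m hm => (hF m hm).trans hab

theorem Wd.zero (a : ℕ) : Wd h a (0 : MvPolynomial (V ⊕ V) K) := by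
  intro m hm
  simp at hm

theorem Wd.const (k : K) : Wd h 0 (C k : MvPolynomial (V ⊕ V) K) := by
  classical
  intro m hm
  rw [mem_support_iff, coeff_C] at hm
  by_cases h0 : 0 = m
  · rw [← h0]; simp
  · rw [if_neg h0] at hm
    exact absurd rfl hm

theorem Wd.one : Wd h 0 (1 : MvPolynomial (V ⊕ V) K) := by
  have := Wd.const (h := h) (V := V) (1 : K)
  rwa [map_one] at this

theorem Wd.add {a : ℕ} {F G : MvPolynomial (V ⊕ V) K} (hF : Wd h a F) (hG : Wd h a G) : Wd h a (F + G) := by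
  classical
  intro m hm
  rcases Finset.mem_union.1 (support_add hm) with h1 | h1
  · exact hF m h1
  · exact hG m h1

theorem Wd.neg {a : ℕ} {F : MvPolynomial (V ⊕ V) K} (hF : Wd h a F) : Wd h a (-F) := by
  intro m hm
  rw [support_neg] at hm
  exact hF m hm

theorem Wd.sub {a : ℕ} {F G : MvPolynomial (V ⊕ V) K} (hF : Wd h a F) (hG : Wd h a G) : Wd h a (F - G) := by
  rw [sub_eq_add_neg]
  exact hF.add hG.neg

theorem Wd.mul {a b : ℕ} {F G : MvPolynomial (V ⊕ V) K} (hF : Wd h a F) (hG : Wd h b G) :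
    Wd h (a + b) (F * G) := by
  classical
  intro m hm
  obtain ⟨m1, h1, m2, h2, rfl⟩ := Finset.mem_add.1 (support_mul F G hm)
  have e1 := hF m1 h1
  have e2 := hG m2 h2
  rw [Finsupp.add_apply, Finsupp.add_apply]
  omega

theorem Wd.mul0 {a : ℕ} {F G : MvPolynomial (V ⊕ V) K} (hF : Wd h 0 F) (hG : Wd h a G) : Wd h a (F * G) :=
  (hF.mul hG).mono (by omega)

theorem Wd.pow {a : ℕ} {F : MvPolynomial (V ⊕ V) K} (hF : Wd h a F) (k : ℕ) : Wd h (k * a) (F ^ k) := by
  induction k with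
  | zero => rw [pow_zero]; exact Wd.one.mono (by omega)
  | succ k ih => rw [pow_succ]; exact (ih.mul hF).mono (by rw [Nat.succ_mul])

theorem Wd.prod {ι : Type} (s : Finset ι) (F : ι → MvPolynomial (V ⊕ V) K) (d : ι → ℕ)
    (hF : ∀ i ∈ s, Wd h (d i) (F i)) : Wd h (∑ i ∈ s, d i) (∏ i ∈ s, F i) := by
  classical
  induction s using Finset.induction_on with
  | empty => simpa using (Wd.one (h := h) (K := K) (V := V))
  | insert a s ha ih =>
    rw [Finset.sum_insert ha, Finset.prod_insert ha]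
    exact (hF a (Finset.mem_insert_self a s)).mul
      (ih fun i hi => hF i (Finset.mem_insert_of_mem hi))

theorem Wd.sum {ι : Type} (s : Finset ι) (F : ι → MvPolynomial (V ⊕ V) K) {d : ℕ}
    (hF : ∀ i ∈ s, Wd h d (F i)) : Wd h d (∑ i ∈ s, F i) := by
  classical
  induction s using Finset.induction_on with
  | empty => simpa using (Wd.zero (h := h) (K := K) (V := V) d)
  | insert a s ha ih =>
    rw [Finset.sum_insert ha]
    exact (hF a (Finset.mem_insert_self a s)).add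
      (ih fun i hi => hF i (Finset.mem_insert_of_mem hi))

theorem Wd.algebraMap (k : K) : Wd h 0 (algebraMap K (MvPolynomial (V ⊕ V) K) k) := Wd.const k

theorem Wd.ofNat (k : ℕ) [k.AtLeastTwo] : Wd h 0 (OfNat.ofNat k : MvPolynomial (V ⊕ V) K) := by
  have := Wd.const (h := h) (V := V) (OfNat.ofNat k : K)
  rwa [map_ofNat] at this

theorem Wd.int (k : ℤ) : Wd h 0 ((k : ℤ) : MvPolynomial (V ⊕ V) K) := by
  have := Wd.const (h := h) (V := V) (k : K)
  rwa [map_intCast] at this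

/-- the weight of the variables of index `j` -/
def dl {V : Type} [DecidableEq V] (h j : V) : ℕ := if j = h then 1 else 0

theorem Wd.gX [DecidableEq V] (j : V) :
    Wd h (dl h j) (X (Sum.inl j) : MvPolynomial (V ⊕ V) K) := by
  classical
  intro m hm
  rw [support_X, Finset.mem_singleton] at hm
  subst hm
  unfold dl
  rw [Finsupp.single_apply, Finsupp.single_apply]
  by_cases h1 : j = h
  · simp [h1]
  · have h2 : ¬ ((Sum.inl j : V ⊕ V) = Sum.inl h) := fun h3 => h1 (Sum.inl.inj h3)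
    rw [if_neg h2]
    simp

theorem Wd.gP [DecidableEq V] (j : V) :
    Wd h (2 * dl h j) (X (Sum.inr j) : MvPolynomial (V ⊕ V) K) := by
  classical
  intro m hm
  rw [support_X, Finset.mem_singleton] at hm
  subst hm
  unfold dl
  rw [Finsupp.single_apply, Finsupp.single_apply]
  by_cases h1 : j = h
  · simp [h1]
  · have h2 : ¬ ((Sum.inr j : V ⊕ V) = Sum.inr h) := fun h3 => h1 (Sum.inr.inj h3)
    rw [if_neg h2]
    simp

end Wdalg

section laws

variable {K : Type} [Field K] {V : Type} {h : V}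

/-- all `b_i` are constants -/
def Cb (h : V) (W : WeierstrassCurve (MvPolynomial (V ⊕ V) K)) : Prop :=
  Wd h 0 W.b₂ ∧ Wd h 0 W.b₄ ∧ Wd h 0 W.b₆ ∧ Wd h 0 W.b₈

theorem Cb_map (W : Affine K) : Cb h (W.map (algebraMap K (MvPolynomial (V ⊕ V) K))) := by
  refine ⟨?_, ?_, ?_, ?_⟩
  · rw [map_b₂]; exact Wd.algebraMap _
  · rw [map_b₄]; exact Wd.algebraMap _
  · rw [map_b₆]; exact Wd.algebraMap _
  · rw [map_b₈]; exact Wd.algebraMap _

variable {W : WeierstrassCurve (MvPolynomial (V ⊕ V) K)}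

theorem Wd_Ah (hW : Cb h W) {t z : MvPolynomial (V ⊕ V) K} {d : ℕ} (ht : Wd h d t) (hz : Wd h d z) :
    Wd h (4 * d) (Ah W t z) := by
  obtain ⟨-, h4, h6, h8⟩ := hW
  unfold Ah
  refine ((Wd.sub ?_ ?_).sub ?_).sub ?_
  · exact ht.pow 4
  · exact ((h4.mul (ht.pow 2)).mul (hz.pow 2)).mono (by omega)
  · exact (((((Wd.ofNat 2).mul h6)).mul ht).mul (hz.pow 3)).mono (by omega)
  · exact (h8.mul (hz.pow 4)).mono (by omega)

theorem Wd_Bh (hW : Cb h W) {t z : MvPolynomial (V ⊕ V) K} {d : ℕ} (ht : Wd h d t) (hz : Wd h d z) :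
    Wd h (4 * d) (Bh W t z) := by
  obtain ⟨h2, h4, h6, h8⟩ := hW
  unfold Bh
  refine ((Wd.add ?_ ?_).add ?_).add ?_
  · exact (((Wd.ofNat 4).mul (ht.pow 3)).mul hz).mono (by omega)
  · exact ((h2.mul (ht.pow 2)).mul (hz.pow 2)).mono (by omega)
  · exact (((((Wd.ofNat 2).mul h4)).mul ht).mul (hz.pow 3)).mono (by omega)
  · exact (h6.mul (hz.pow 4)).mono (by omega)

theorem Wd_Ch (hW : Cb h W) {t z : MvPolynomial (V ⊕ V) K} {d : ℕ} (ht : Wd h d t) (hz : Wd h d z) :
    Wd h (6 * d) (Ch W t z) := by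
  obtain ⟨h2, h4, h6, h8⟩ := hW
  unfold Ch
  refine (((((Wd.add ?_ ?_).add ?_).add ?_).add ?_).add ?_).add ?_
  · exact ((Wd.ofNat 2).mul (ht.pow 6)).mono (by omega)
  · exact ((h2.mul (ht.pow 5)).mul hz).mono (by omega)
  · exact ((((Wd.ofNat 5).mul h4).mul (ht.pow 4)).mul (hz.pow 2)).mono (by omega)
  · exact ((((Wd.ofNat 10).mul h6).mul (ht.pow 3)).mul (hz.pow 3)).mono (by omega)
  · exact ((((Wd.ofNat 10).mul h8).mul (ht.pow 2)).mul (hz.pow 4)).mono (by omega)
  · exact ((((h2.mul h8).sub (h4.mul h6)).mul ht).mul (hz.pow 5)).mono (by omega)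
  · exact (((h4.mul h8).sub ((h6.pow 2).mono (by omega))).mul (hz.pow 6)).mono (by omega)

theorem Wd_Ph (hW : Cb h W) {x : MvPolynomial (V ⊕ V) K} {d : ℕ} (hx : Wd h d x) (e : ℕ) :
    Wd h (4 ^ e * d) (Ph W e x).1 ∧ Wd h (4 ^ e * d) (Ph W e x).2 := by
  induction e with
  | zero => exact ⟨hx.mono (by simp), Wd.one.mono (by simp)⟩
  | succ e ih =>
    constructor
    · exact (Wd_Ah hW ih.1 ih.2).mono (le_of_eq (by rw [pow_succ]; ring))
    · exact (Wd_Bh hW ih.1 ih.2).mono (le_of_eq (by rw [pow_succ]; ring))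

theorem Wd_Rr (hW : Cb h W) {x : MvPolynomial (V ⊕ V) K} {d : ℕ} (hx : Wd h d x) (e : ℕ) :
    Wd h (2 * (4 ^ e - 1) * d) (Rr W e x) := by
  induction e with
  | zero => exact Wd.one.mono (by simp)
  | succ e ih =>
    have h1 := Wd_Ph hW hx e
    refine (ih.mul (Wd_Ch hW h1.1 h1.2)).mono (le_of_eq ?_)
    have h2 : 1 ≤ 4 ^ e := Nat.one_le_pow _ _ (by norm_num)
    obtain ⟨k, hk⟩ := Nat.exists_eq_add_of_le h2
    rw [pow_succ, hk]
    have h3 : (1 + k) * 4 - 1 = 3 + 4 * k := by omega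
    rw [h3, Nat.add_sub_cancel_left]
    ring

theorem Wd_law (hW : Cb h W) {x c η : MvPolynomial (V ⊕ V) K} {dx dc : ℕ} (hx : Wd h dx x) (hc : Wd h dc c)
    (hη : Wd h (2 * dx + 2 * dc) η) (e : ℕ) :
    Wd h (2 * 4 ^ e * dx + 2 * dc) (law W e false x c η).1 ∧
      Wd h (2 * 4 ^ e * dx + 2 * dc) (law W e false x c η).2 := by
  obtain ⟨ht, hz⟩ := Wd_Ph hW hx e
  have hR := Wd_Rr hW hx e
  obtain ⟨h2, h4, h6, h8⟩ := hW
  unfold law
  rw [if_neg (by simp)]
  have hcz : Wd h (4 ^ e * dx + dc) (c * (Ph W e x).2) := (hc.mul hz).mono (by omega)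
  have ht' : Wd h (4 ^ e * dx + dc) (Ph W e x).1 := ht.mono (by omega)
  have e1 : 2 * 4 ^ e * dx = 2 * (4 ^ e * dx) := by ring
  constructor
  · have h3 : Wd h (2 * (4 ^ e * dx + dc)) (Uh c (Ph W e x).1 (Ph W e x).2) := by
      unfold Uh
      exact (ht'.sub hcz).pow 2
    exact ((Wd.ofNat 2).mul h3).mono (by rw [e1]; omega)
  · refine Wd.add ?_ ?_
    · unfold Th
      refine ((Wd.add ?_ ?_).add ?_).add ?_
      · exact (((Wd.ofNat 2).mul (ht'.add hcz)).mul (ht.mul hc)).mono (by rw [e1]; omega)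
      · exact (h2.mul ((ht.mul hz).mul hc)).mono (by rw [e1]; omega)
      · exact ((h4.mul (ht'.add hcz)).mul hz).mono (by rw [e1]; omega)
      · exact (h6.mul (hz.pow 2)).mono (by rw [e1]; omega)
    · refine (hη.mul hR).mono ?_
      have h5 : 1 ≤ 4 ^ e := Nat.one_le_pow _ _ (by norm_num)
      obtain ⟨k, hk⟩ := Nat.exists_eq_add_of_le h5
      rw [hk, Nat.add_sub_cancel_left]
      exact le_of_eq (by ring)

end laws

/-- the weight of one block -/
theorem block {K : Type} [Field K] {σ : Type} [Fintype σ] [DecidableEq σ] (W : σ → Affine K)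
    {n : ℕ} (M : ℕ) (e : Fin n → ℕ) (ε : Fin n × σ → ℤˣ) (h : VV σ n) (j : Fin n)
    (x : Ax σ M (e j)) :
    Wd h (∑ i : σ, ((2 * M + 1) * 4 ^ e j * dl h (Sum.inl (j, i)) + 2 * M * dl h (Sum.inr i)))
      (blkB (mapS (GRB K σ n) W) M (e j) (fun _ => false)
        (fun i => (X (Sum.inl (Sum.inl (j, i))) : GRB K σ n))
        (fun i => (((ε (j, i) : ℤˣ) : ℤ) : GRB K σ n) * X (Sum.inr (Sum.inl (j, i))))
        (fun i => (X (Sum.inl (Sum.inr i)) : GRB K σ n))
        (fun i => (X (Sum.inr (Sum.inr i)) : GRB K σ n)) x) := by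
  unfold blkB
  refine Wd.prod Finset.univ _ _ fun i _ => ?_
  have hlaw := Wd_law (h := h) (W := mapS (GRB K σ n) W i) (Cb_map _)
    (Wd.gX (K := K) (Sum.inl (j, i))) (Wd.gX (K := K) (Sum.inr i))
    ((((Wd.int (K := K) (((ε (j, i) : ℤˣ) : ℤ))).mul0 (Wd.gP (K := K) (h := h) (Sum.inl (j, i)))).mul
      (Wd.gP (K := K) (Sum.inr i)))) (e j)
  obtain ⟨hl1, hl2⟩ := hlaw
  refine ((Wd.gX _).pow _ |>.mul ((hl1.pow _).mul (hl2.pow _))).mono ?_
  have h1 : (x i).1.val ≤ 4 ^ e j := (x i).1.isLt.le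
  have h2 : (x i).2.val ≤ M := Nat.lt_succ_iff.1 (x i).2.isLt
  have h3 : (M - (x i).2.val) + (x i).2.val = M := Nat.sub_add_cancel h2
  rw [← add_mul, h3]
  have h4 : (x i).1.val * dl h (Sum.inl (j, i)) ≤ 4 ^ e j * dl h (Sum.inl (j, i)) :=
    Nat.mul_le_mul_right _ h1
  calc (x i).1.val * dl h (Sum.inl (j, i)) +
        M * (2 * 4 ^ e j * dl h (Sum.inl (j, i)) + 2 * dl h (Sum.inr i))
      ≤ 4 ^ e j * dl h (Sum.inl (j, i)) +
        M * (2 * 4 ^ e j * dl h (Sum.inl (j, i)) + 2 * dl h (Sum.inr i)) :=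
        Nat.add_le_add_right h4 _
    _ = _ := by ring

/-- one factor of the product -/
theorem main (K : Type) [Field K] (σ : Type) [Fintype σ] [DecidableEq σ] (W : σ → Affine K)
    (n M δ : ℕ) (e : Fin n → ℕ) (c : Ix σ n M δ e → K) (ε : Fin n × σ → ℤˣ) (h : VV σ n) :
    Wd h (Sum.elim (fun h : Fin n × σ => (2 * M + 1) * 4 ^ e h.1) (fun _ => 2 * n * M + δ) h)
      (PeB W n M δ e c ε) := by
  classical
  unfold PeB P0B PB
  refine Wd.sum _ _ fun α _ => ?_
  have hprod := Wd.prod (h := h) Finset.univ _ _ (fun j _ => block W M e ε h j (α.1 j))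
  have hlast : Wd h (∑ i : σ, (α.2 i).val * dl h (Sum.inr i))
      (∏ i : σ, (X (Sum.inl (Sum.inr i)) : GRB K σ n) ^ (α.2 i).val) :=
    Wd.prod Finset.univ _ _ (fun i _ => (Wd.gX _).pow _)
  refine (((Wd.algebraMap (c α)).mul hprod).mul hlast).mono ?_
  rw [zero_add]
  rcases h with ⟨j0, i0⟩ | i0
  · have h1 : ∑ j : Fin n, ∑ i : σ, ((2 * M + 1) * 4 ^ e j * dl (Sum.inl (j0, i0) : VV σ n) (Sum.inl (j, i)) +
        2 * M * dl (Sum.inl (j0, i0) : VV σ n) (Sum.inr i)) = (2 * M + 1) * 4 ^ e j0 := by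
      rw [Finset.sum_eq_single j0]
      · rw [Finset.sum_eq_single i0]
        · simp [dl]
        · intro b _ hb
          simp [dl, hb]
        · intro h3
          exact absurd (Finset.mem_univ _) h3
      · intro b _ hb
        refine Finset.sum_eq_zero fun i _ => ?_
        simp [dl, hb]
      · intro h3
        exact absurd (Finset.mem_univ _) h3
    have h2 : ∑ i : σ, (α.2 i).val * dl (Sum.inl (j0, i0) : VV σ n) (Sum.inr i) = 0 :=
      Finset.sum_eq_zero fun i _ => by simp [dl]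
    rw [h1, h2]
    simp
  · have h1 : ∑ j : Fin n, ∑ i : σ, ((2 * M + 1) * 4 ^ e j * dl (Sum.inr i0 : VV σ n) (Sum.inl (j, i)) +
        2 * M * dl (Sum.inr i0 : VV σ n) (Sum.inr i)) = 2 * n * M := by
      have h3 : ∀ j : Fin n, ∑ i : σ, ((2 * M + 1) * 4 ^ e j * dl (Sum.inr i0 : VV σ n) (Sum.inl (j, i)) +
          2 * M * dl (Sum.inr i0 : VV σ n) (Sum.inr i)) = 2 * M := by
        intro j
        rw [Finset.sum_eq_single i0]
        · simp [dl]
        · intro b _ hb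
          simp [dl, hb]
        · intro h3
          exact absurd (Finset.mem_univ _) h3
      rw [Finset.sum_congr rfl fun j _ => h3 j, Finset.sum_const, Finset.card_univ, Fintype.card_fin,
        smul_eq_mul]
      ring
    have h2 : ∑ i : σ, (α.2 i).val * dl (Sum.inr i0 : VV σ n) (Sum.inr i) ≤ δ := by
      rw [Finset.sum_eq_single i0]
      · have h4 : dl (Sum.inr i0 : VV σ n) (Sum.inr i0) = 1 := by simp [dl]
        rw [h4, mul_one]
        exact (α.2 _).isLt.le
      · intro b _ hb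
        simp [dl, hb]
      · intro h3
        exact absurd (Finset.mem_univ _) h3
    rw [h1]
    simp only [Sum.elim_inr]
    omega

/-- **NWB.** -/
theorem t_NWB : Pool.Agent.Helper68.VN.NWB := by
  intro K _ σ _ _ W n M δ e c h
  have H : Wd h (ddB σ n M δ e h) (QhB W n M δ e c) := by
    unfold QhB
    refine (Wd.prod Finset.univ _ _ (fun ε _ => main K σ W n M δ e c ε h)).mono (le_of_eq ?_)
    rw [Finset.sum_const, Finset.card_univ, Fintype.card_fun, Fintype.card_prod, Fintype.card_fin,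
      Fintype.card_units_int, smul_eq_mul]
    unfold ddB nsg
    rcases h with h | h <;> simp
  exact H

end

end Pool.Agent.Helper75.VN
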